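import Pool.Agent.MP_c1891a_nt.H43.Spec

/-! A chart at a smooth zero. -/

set_option autoImplicit false

namespace Pool.Agent.MP_c1891a_nt.H43

open Finset Filter Topology

theorem chart_gen (f : ℝ × ℝ → ℂ) (u : ℝ × ℝ) (c : ℂ) (hf : AnalyticAt ℝ f u) (h0 : f u = 0)
    (hd : HasDerivAt (fun θ => f (u.1, θ)) c u.2) (hc : c ≠ 0) :
    ∃ (δ C : ℝ) (γ : ℝ → ℝ), 0 < δ ∧ AnalyticOnNhd ℝ γ (Set.Icc (u.1 - δ) (u.1 + δ)) ∧
      ∀ θ φ : ℝ, |θ - u.2| ≤ δ → |φ - u.1| ≤ δ →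
        |θ - γ φ| ≤ C * ‖f (φ, θ)‖ ∧ ‖f (φ, γ φ)‖ ≤ C * ‖f (φ, θ)‖ := by
  set g : ℝ × ℝ → ℝ := fun v => Complex.reCLM (c⁻¹ * f v) with hg
  have hga : AnalyticAt ℝ g u :=
    (Complex.reCLM.analyticAt _).comp (analyticAt_const.mul hf)
  have hgc : ContDiffAt ℝ ⊤ g u := hga.contDiffAt
  have hline : HasDerivAt (fun θ : ℝ => ((u.1, θ) : ℝ × ℝ)) (0, 1) u.2 :=
    (hasDerivAt_const _ _).prodMk (hasDerivAt_id _)
  have h1 : fderiv ℝ g u (0, 1) = 1 := by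
    have a1 : HasDerivAt (fun θ : ℝ => g (u.1, θ)) (fderiv ℝ g u (0, 1)) u.2 :=
      HasFDerivAt.comp_hasDerivAt (l := g) (f := fun θ : ℝ => ((u.1, θ) : ℝ × ℝ)) u.2
        hga.differentiableAt.hasFDerivAt hline
    have a2 : HasDerivAt (fun θ : ℝ => g (u.1, θ)) (Complex.reCLM (c⁻¹ * c)) u.2 :=
      Complex.reCLM.hasFDerivAt.comp_hasDerivAt u.2 (hd.const_mul c⁻¹)
    rw [a1.unique a2, inv_mul_cancel₀ hc]
    simp
  have h2 : ∀ t : ℝ, fderiv ℝ g u (0, t) = t := by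
    intro t
    have : ((0, t) : ℝ × ℝ) = t • ((0, 1) : ℝ × ℝ) := by simp
    rw [this, map_smul, h1, smul_eq_mul, mul_one]
  have hinv : (fderiv ℝ g u ∘L .inr ℝ ℝ ℝ).IsInvertible := by
    refine ⟨ContinuousLinearEquiv.refl ℝ ℝ, ?_⟩
    ext
    simp [h1]
  have pn : (⊤ : WithTop ℕ∞) ≠ 0 := by simp
  set γ := hgc.implicitFunction pn hinv with hγ
  have hγa : AnalyticAt ℝ γ u.1 := (hgc.contDiffAt_implicitFunction pn hinv).analyticAt
  have hγ0 : γ u.1 = u.2 := hgc.implicitFunction_apply_self pn hinv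
  have hγz : ∀ᶠ x in 𝓝 u.1, g (x, γ x) = g u := hgc.eventually_apply_implicitFunction pn hinv
  obtain ⟨s, hs, happ⟩ := (hgc.hasStrictFDerivAt pn).approximates_deriv_on_nhds
    (c := 1 / 2) (Or.inr (by norm_num))
  obtain ⟨K, t, ht, hK⟩ := (hf.contDiffAt (n := 1)).exists_lipschitzOnWith
  have hT : Tendsto (fun v : ℝ × ℝ => ((v.1, γ v.1) : ℝ × ℝ)) (𝓝 u) (𝓝 u) := by
    have : ContinuousAt (fun v : ℝ × ℝ => ((v.1, γ v.1) : ℝ × ℝ)) u :=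
      continuousAt_fst.prodMk (hγa.continuousAt.comp continuousAt_fst)
    have e : ((u.1, γ u.1) : ℝ × ℝ) = u := by rw [hγ0]
    simpa only [ContinuousAt, e] using this
  have hev : ∀ᶠ v in 𝓝 u, (v ∈ s ∧ v ∈ t) ∧ (((v.1, γ v.1) : ℝ × ℝ) ∈ s ∧
      ((v.1, γ v.1) : ℝ × ℝ) ∈ t) ∧ g (v.1, γ v.1) = g u ∧ AnalyticAt ℝ γ v.1 :=
    (Eventually.and hs ht).and (((hT.eventually hs).and (hT.eventually ht)).and
      ((continuousAt_fst.tendsto.eventually hγz).and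
        (continuousAt_fst.tendsto.eventually hγa.eventually_analyticAt)))
  obtain ⟨ε, hε, hb⟩ := Metric.eventually_nhds_iff.mp hev
  have hbox : ∀ θ φ : ℝ, |θ - u.2| ≤ ε / 2 → |φ - u.1| ≤ ε / 2 → dist ((φ, θ) : ℝ × ℝ) u < ε := by
    intro θ φ a b
    rw [Prod.dist_eq, Real.dist_eq, Real.dist_eq]
    exact max_lt (by linarith) (by linarith)
  have hci : 0 ≤ ‖c⁻¹‖ := norm_nonneg _
  have hK0 : (0 : ℝ) ≤ K := K.2
  refine ⟨ε / 2, 1 + (1 + K) * (2 * ‖c⁻¹‖), γ, by linarith, ?_, ?_⟩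
  · intro φ hφ
    exact (hb (hbox u.2 φ (by simp; linarith) (abs_le.mpr ⟨by linarith [hφ.1], by linarith [hφ.2]⟩))).2.2.2
  · intro θ φ a b
    obtain ⟨⟨s1, t1⟩, ⟨s2, t2⟩, hz, -⟩ := hb (hbox θ φ a b)
    have gu : g u = 0 := by simp [hg, h0]
    have b1 := happ _ s1 _ s2
    have e1 : ((φ, θ) : ℝ × ℝ) - (φ, γ φ) = (0, θ - γ φ) := by simp
    simp only at hz
    rw [e1, h2, hz, gu, sub_zero, Prod.norm_mk, norm_zero, Real.norm_eq_abs, Real.norm_eq_abs,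
      max_eq_right (abs_nonneg _)] at b1
    have b2 : |g (φ, θ)| ≤ ‖c⁻¹‖ * ‖f (φ, θ)‖ := by
      rw [← norm_mul]
      exact Complex.abs_re_le_norm _
    have b3 : |θ - γ φ| ≤ 2 * ‖c⁻¹‖ * ‖f (φ, θ)‖ := by
      have := abs_sub_abs_le_abs_sub (θ - γ φ) (g (φ, θ))
      rw [abs_sub_comm (θ - γ φ)] at this
      push_cast at b1
      linarith
    have b4 := hK.norm_sub_le t1 t2
    rw [e1, Prod.norm_mk, norm_zero, Real.norm_eq_abs, max_eq_right (abs_nonneg _)] at b4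
    have b5 := norm_sub_norm_le (f (φ, γ φ)) (f (φ, θ))
    rw [norm_sub_rev] at b5
    have n0 := norm_nonneg (f (φ, θ))
    have b6 := mul_le_mul_of_nonneg_left b3 hK0
    have b7 : 0 ≤ K * (2 * ‖c⁻¹‖ * ‖f (φ, θ)‖) := by positivity
    have b8 : 0 ≤ 2 * ‖c⁻¹‖ * ‖f (φ, θ)‖ := by positivity
    constructor <;> nlinarith

theorem chart_zpow (t : ℝ) (m : ℤ) :
    E t ^ m = Complex.exp (m * (2 * Real.pi * Complex.I) * t) := by
  rw [E, ← Complex.exp_int_mul, mul_assoc (m : ℂ)]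

theorem sChart : SChart := by
  intro P θ₀ φ₀ h0 hc
  have hA : ∀ (a : ℂ) (x : ℝ), AnalyticAt ℝ (fun t : ℝ => Complex.exp (a * t)) x := fun a x =>
    (analyticAt_cexp.restrictScalars (𝕜 := ℝ)).comp
      (analyticAt_const.mul (Complex.ofRealCLM.analyticAt x))
  refine chart_gen (fun v => ev P (E v.2) (E v.1)) (φ₀, θ₀)
    ((2 * Real.pi * Complex.I) *
      ∑ μ ∈ P.coeff.support, (μ.1 : ℂ) * ((P.coeff μ : ℂ) * E θ₀ ^ μ.1 * E φ₀ ^ μ.2)) ?_ h0 ?_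
    (mul_ne_zero Complex.two_pi_I_ne_zero hc)
  · simp only [ev, chart_zpow]
    refine Finset.analyticAt_fun_sum _ fun μ _ => ?_
    exact (analyticAt_const.mul ((hA _ _).comp analyticAt_snd)).mul ((hA _ _).comp analyticAt_fst)
  · simp only [ev, chart_zpow]
    rw [Finset.mul_sum]
    refine HasDerivAt.fun_sum fun μ _ => ?_
    have h1 : HasDerivAt (fun t : ℝ => Complex.exp (μ.1 * (2 * Real.pi * Complex.I) * t))
        (Complex.exp (μ.1 * (2 * Real.pi * Complex.I) * θ₀) *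
          (μ.1 * (2 * Real.pi * Complex.I) * 1)) θ₀ :=
      ((Complex.ofRealCLM.hasDerivAt (x := θ₀)).const_mul _).cexp
    refine ((h1.const_mul (P.coeff μ : ℂ)).mul_const _).congr_deriv ?_
    ring

end Pool.Agent.MP_c1891a_nt.H43
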